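import Pool.Agent.W900.FS.Dec
import Pool.Agent.H591R3.PHG.Cover
import Pool.Agent.H591R3.PHG.LangSig

/-!
# How many strings of a random oracle have to be changed to get OR-distillations?

The number of changes is measured by a function `g`: the oracle `A` is obtained from `O` by changing,
for all large `n`, at most `g n` of the strings of length at most `n`. If `g n ≤ 2 ^ (n ^ ε)` for
every `ε > 0` and infinitely many `n`, then for almost every oracle `O`, relative to all oracles `A`
obtained from `O` by at most `g` changes, however these depend on `O`, no `NP`-hard set has an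
OR-compression into any set whatsoever.
Otherwise every oracle `O` can be changed, by at most `g` changes, into an oracle relative to which
all `NP`-complete sets have OR-distillations and AND-distillations.

So the conjecture of Bodlaender, Downey, Fellows and Hermelin is true relative to a random oracle, it
stays true under any subexponential number of changes, even if this is the number of the changes only
for infinitely many lengths, and it does not withstand `2 ^ (n ^ ε)` changes.
-/

set_option autoImplicit false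

namespace Pool.Agent.Results.MP_609cce_lc.ChangedStrings

open Pool.Agent.NPC Pool.Agent.H620R2.Gauge Pool.Agent.W900.CH
open Pool.Agent.H591R3.PHG (IsSig IsSigPoly null_of_frequently2 lang_sig)
open Pool.Agent.H593R3.DST (NPHardRel ORCompression ANDCompression)
open Pool.Agent.H628R3.RO (randomOracle)
open MeasureTheory

theorem result (g : ℕ → ℝ) :
    ((∀ ε : ℝ, 0 < ε → ∃ᶠ n : ℕ in Filter.atTop, g n ≤ 2 ^ (n : ℝ) ^ ε) →
      ∀ᵐ O ∂randomOracle, ∀ A : Oracle, Close g O A →
        ∀ R S, NPHardRel A R → ¬ ORCompression A R S) ∧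
    ((¬ ∀ ε : ℝ, 0 < ε → ∃ᶠ n : ℕ in Filter.atTop, g n ≤ 2 ^ (n : ℝ) ^ ε) →
      ∀ O : Oracle, ∃ A : Oracle, Close g O A ∧
        (∃ R, Pool.Agent.H877R3.Join.IsNP A R ∧ NPHardRel A R) ∧
        ∀ R, Pool.Agent.H877R3.Join.IsNP A R → NPHardRel A R →
          ORCompression A R R ∧ ANDCompression A R R) := by
  refine ⟨fun hg => ?_, fun hg O => ?_⟩
  · have hS : ∀ f : ℕ → ℝ, (∀ ε : ℝ, 0 < ε → ∃ᶠ N : ℕ in Filter.atTop,
        f N ≤ 2 ^ (Real.logb 2 N) ^ ε) →
        Null f {A : Oracle | ∃ k, ∀ L, IsSig A (k + 1) L → IsSigPoly A k L} := by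
      intro f hf
      refine null_of_frequently2 f hf _ fun A hA => ?_
      obtain ⟨k, hk⟩ := hA
      exact ⟨k, hk _ (lang_sig A k)⟩
    filter_upwards [ae_far_P hS hg] with O hO A hA R S hR hC
    exact hO A hA ⟨1, fun L hL => Pool.Agent.W900.FS.fs hR hC hL⟩
  · obtain ⟨A, h2, h3⟩ := exists_close_PSPACE hg O
    have h4 : ∀ L, Pool.Agent.H877R3.Join.IsNP A L → IsP A L := fun L hL =>
      isP_of_reduces (h3 L (Pool.Agent.W900.FS.isPSPACE_of_np hL))
    refine ⟨A, h2, ⟨{[true]}, ?_, fun L hL => ?_⟩, fun R hR hH =>
      Pool.Agent.W900.FS.compress h4 hR hH⟩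
    · refine Pool.Agent.W900.FS.isNP_of_isP ⟨fun x => x, IsFP.of_poly Poly.id, fun x => ?_⟩
      simp
    · obtain ⟨F, hF, h5, h6⟩ := Pool.Agent.W900.FS.isFP_ite (h4 L hL) [true] []
      refine ⟨F, hF, fun x => ⟨fun h => h5 x h, fun h => ?_⟩⟩
      by_contra hx
      rw [h6 x hx] at h
      simp at h

end Pool.Agent.Results.MP_609cce_lc.ChangedStrings
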