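import Pool.Agent.W953.RD.Dist

/-!
# OR-distillation of CNF-SAT with few NOT gates, on few and on many slices

`Dist` is the existence of a nonuniform OR-distillation of CNF-SAT (into arbitrary sets of short
strings) by circuits of polynomial size, and `DistOn s W` is the existence of such a distillation by
circuits with at most `s` NOT gates which, for every `a`, have to be right only on the tuples of
formulas with at least `a` and less than `a + W` occurrences of literals; here `s` and `W` are
functions of the numbers `n` of variables, `M` of clauses and `T` of formulas.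

The two are equivalent if `1 ≤ W ≤ 2 ^ s`, and `DistOn s W` is false if
`2 ^ s * (M n + 2) ^ c ≤ min W T` for suitable `n`, `M`, `T` for every `c`.
-/

set_option autoImplicit false

namespace Pool.Agent.Results.MP_609cce_lc.DistillationWindows

open Filter Pool.Agent.W953.RD

/-- (1) If `1 ≤ W ≤ 2 ^ s` then `DistOn s W` is equivalent to `Dist`. (2) If for every `c` there are
infinitely many `n` such that `n ^ c ≤ M`, `(T * M * n + 2) ^ c ≤ 2 ^ n` and
`2 ^ s * (M * n + 2) ^ c ≤ min W T` for some `M`, `T`, then `DistOn s W` is false. -/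
theorem result :
    (∀ s W : ℕ → ℕ → ℕ → ℕ, (∀ n M T, 1 ≤ W n M T ∧ W n M T ≤ 2 ^ s n M T) →
      (DistOn s W ↔ Dist)) ∧
    (∀ s W : ℕ → ℕ → ℕ → ℕ, (∀ c : ℕ, ∃ᶠ n : ℕ in atTop, ∃ M T : ℕ,
      n ^ c ≤ M ∧ (T * M * n + 2) ^ c ≤ 2 ^ n ∧ 2 ^ s n M T * (M * n + 2) ^ c ≤ T ∧
      2 ^ s n M T * (M * n + 2) ^ c ≤ W n M T) → ¬ DistOn s W) :=
  ⟨dist_iff, not_distOn⟩

end Pool.Agent.Results.MP_609cce_lc.DistillationWindows
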