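import Mathlib
import Pool.Agent.H592R3.Defs
import Pool.Agent.W964.Wd.Machine
import Pool.Agent.W964.Wd.Or.Defs
import Pool.Agent.W964.Wd.Or.Final

/-!
The OR-distillation conjecture for ideal parallel random access machines (priority concurrent
writing, concurrent searching of lists of cells, arbitrary instruction set, unbounded words,
unbounded memory, different programs for different processors): `2 ^ ((1 - ε) n)` processors
cannot in `o (n / log n)` steps map `m` CNF formulas with `n` variables to a string of at most `m`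
words, of arbitrary length, from which an arbitrary predicate tells whether one of the formulas
is satisfiable.
-/

set_option autoImplicit false

open SmallDepth Finset Filter Pool.Agent.W964.Wd

namespace Pool.Agent.Results.MP_609cce_lc.ParallelDistillers

/-- 1. For every `ε > 0` and `K` there is `C > 0` such that the following holds for `n ≥ 2`
variables, `T ≥ 1` steps, width `C T log n ≤ w ≤ n` and `M ≥ n 2 ^ w` clauses. Let
`1 ≤ m ≤ 2 ^ (n / 8)` and let `D` be a randomized parallel distiller for `m` CNF formulas with `n`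
variables and `M` clauses with at most `2 ^ ((1 - ε) n)` processors, lists of length at most
`2 ^ (K n)`, `U` output words and arbitrary target languages. Then there are `m` formulas of width
at most `w` for which the output after `T` steps has the correct membership in the target language
(the output belongs to it if and only if one of the formulas is satisfiable) with probability at
most `1 / 2 + (1 + U / m) 2 ^ (-w / C)`.

2. For `0 < δ < 2`, every `K` and every number of steps `T n = o (n / log n)` there are a width
`w n = O (T n log n) = o (n)` and a number of clauses `M n ≤ n ^ O(T n) = 2 ^ o(n)` such that, for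
every polynomial and all large `n`, randomized parallel distillers with at most `(2 - δ) ^ n` times
a polynomial in `M n` processors, lists of length at most `2 ^ (K n)` and `T n` steps that map `m`
formulas with `n` variables, `M n` clauses and width at most `w n`, `m` at most a polynomial in
`M n`, to a string of at most `m` words fail with probability more than `1 / 3` on some input. -/
theorem result :
    (∀ (ε : ℝ) (K : ℕ), 0 < ε → ∃ C : ℝ, 0 < C ∧
      ∀ n T w M : ℕ, 2 ≤ n → 1 ≤ T → C * (T * Real.log n) ≤ w → w ≤ n → n * 2 ^ w ≤ M →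
      ∀ m : ℕ, 1 ≤ m → m ^ 8 ≤ 2 ^ n →
      ∀ (P U : ℕ) (D : RandDistiller (Fin m × (Fin M × Fin n × Bool)) P U),
        (P : ℝ) ≤ 2 ^ ((1 - ε) * n) → D.Lists (2 ^ (K * n)) →
        ∃ x : Fin m × (Fin M × Fin n × Bool) → Bool, (∀ i, WidthLe (fun j => x (i, j)) w) ∧
          D.success T x (∃ i α, Models (fun j => x (i, j)) α) ≤
            1 / 2 + (1 + (U : ℝ) / m) * (2 : ℝ) ^ (-((w : ℝ) / C))) ∧
    (∀ (δ : ℝ) (K : ℕ), 0 < δ → δ < 2 → ∀ T : ℕ → ℕ, (∀ n, 1 ≤ T n) →
      (fun n : ℕ => (T n : ℝ) * Real.log n) =o[atTop] (fun n : ℕ => (n : ℝ)) →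
      ∃ w M : ℕ → ℕ, (∃ C : ℝ, ∀ n, 2 ≤ n → (w n : ℝ) ≤ C * (T n * Real.log n) ∧
          (M n : ℝ) ≤ (n : ℝ) ^ (C * T n)) ∧
        ∀ c e : ℕ, ∀ᶠ n : ℕ in atTop, ∀ m : ℕ, 1 ≤ m → (m : ℝ) ≤ c * (M n : ℝ) ^ e →
          ∀ (P U : ℕ) (D : RandDistiller (Fin m × (Fin (M n) × Fin n × Bool)) P U), U ≤ m →
          (P : ℝ) ≤ (2 - δ) ^ n * (c * (M n : ℝ) ^ e) → D.Lists (2 ^ (K * n)) →
          ∃ x : Fin m × (Fin (M n) × Fin n × Bool) → Bool,
            (∀ i, WidthLe (fun j => x (i, j)) (w n)) ∧
            D.success (T n) x (∃ i α, Models (fun j => x (i, j)) α) < 2 / 3) :=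
  ⟨fun ε K hε => distill_rand ε hε K, fun δ K hδ hδ2 T hT hTo => distill_q1 δ hδ hδ2 K T hT hTo⟩

end Pool.Agent.Results.MP_609cce_lc.ParallelDistillers
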